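import Pool.Agent.Results.MP_632be6_co.WreathClassOne

set_option autoImplicit false

namespace Pool.Agent.Results.MP_632be6_co.WreathAllGraphs

open Finset
open Pool.Agent.Results.MP_632be6_co.WreathClassOne (wreath)

lemma adj_iff {V W : Type} {G : SimpleGraph V} {G' : SimpleGraph W} (hG : ¬ ∃ x y, G.Adj x y)
    (p q : V × W) : (wreath G G').Adj p q ↔ p.1 = q.1 ∧ G'.Adj p.2 q.2 := by
  constructor
  · rintro (h | ⟨h, -⟩)
    · exact h
    · exact absurd ⟨_, _, h⟩ hG
  · exact Or.inl

lemma colorable_iff {V W : Type} (G : SimpleGraph V) (G' : SimpleGraph W)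
    (hG : ¬ ∃ x y, G.Adj x y) (x0 : V) (n : ℕ) :
    (wreath G G').lineGraph.Colorable n ↔ G'.lineGraph.Colorable n := by
  constructor
  · rintro ⟨col⟩
    have hmem : ∀ e : Sym2 W, e ∈ G'.edgeSet →
        e.map (fun w => (x0, w)) ∈ (wreath G G').edgeSet := by
      intro e
      induction e using Sym2.ind with
      | _ u v =>
        intro he
        exact (adj_iff hG _ _).mpr ⟨rfl, he⟩
    refine ⟨SimpleGraph.Coloring.mk (fun e => col ⟨_, hmem e.1 e.2⟩) ?_⟩
    intro e f hef
    apply col.valid
    rw [SimpleGraph.lineGraph_adj_iff_exists] at hef ⊢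
    obtain ⟨hne, v, hv1, hv2⟩ := hef
    refine ⟨?_, (x0, v), Sym2.mem_map.mpr ⟨v, hv1, rfl⟩, Sym2.mem_map.mpr ⟨v, hv2, rfl⟩⟩
    intro heq
    have h1 := congrArg Subtype.val heq
    exact hne (Subtype.ext (Sym2.map.injective (fun a b hab => congrArg Prod.snd hab) h1))
  · rintro ⟨col⟩
    have hmem : ∀ e : Sym2 (V × W), e ∈ (wreath G G').edgeSet → e.map Prod.snd ∈ G'.edgeSet := by
      intro e
      induction e using Sym2.ind with
      | _ p q =>
        intro he
        exact ((adj_iff hG _ _).mp he).2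
    refine ⟨SimpleGraph.Coloring.mk (fun e => col ⟨_, hmem e.1 e.2⟩) ?_⟩
    intro e f hef
    apply col.valid
    rw [SimpleGraph.lineGraph_adj_iff_exists] at hef ⊢
    obtain ⟨hne, p, hv1, hv2⟩ := hef
    obtain ⟨e, he⟩ := e
    obtain ⟨f, hf⟩ := f
    refine ⟨?_, p.2, Sym2.mem_map.mpr ⟨p, hv1, rfl⟩, Sym2.mem_map.mpr ⟨p, hv2, rfl⟩⟩
    obtain ⟨q, rfl⟩ := Sym2.mem_iff_exists.mp hv1
    obtain ⟨r, rfl⟩ := Sym2.mem_iff_exists.mp hv2
    intro heq
    have h1 := congrArg Subtype.val heq
    have h2 : q.2 = r.2 := Sym2.congr_right.mp h1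
    have h3 : q.1 = r.1 := ((adj_iff hG _ _).mp he).1.symm.trans ((adj_iff hG _ _).mp hf).1
    have : q = r := Prod.ext h3 h2
    subst this
    exact hne rfl

lemma maxDegree_eq {V W : Type} [Fintype V] [Fintype W] (G : SimpleGraph V) (G' : SimpleGraph W)
    [DecidableRel G'.Adj] [DecidableRel (wreath G G').Adj]
    (hG : ¬ ∃ x y, G.Adj x y) (x0 : V) : (wreath G G').maxDegree = G'.maxDegree := by
  classical
  have hdeg : ∀ x u, (wreath G G').degree (x, u) = G'.degree u := by
    intro x u
    rw [← SimpleGraph.card_neighborFinset_eq_degree, ← SimpleGraph.card_neighborFinset_eq_degree]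
    have : (wreath G G').neighborFinset (x, u) =
        (G'.neighborFinset u).image (fun v => (x, v)) := by
      ext p
      rw [SimpleGraph.mem_neighborFinset, adj_iff hG, mem_image]
      constructor
      · rintro ⟨h1, h2⟩
        exact ⟨p.2, by simpa using h2, Prod.ext h1 rfl⟩
      · rintro ⟨v, hv, rfl⟩
        exact ⟨rfl, by simpa using hv⟩
    rw [this, card_image_of_injective]
    intro a b hab
    exact congrArg Prod.snd hab
  apply le_antisymm
  · apply SimpleGraph.maxDegree_le_of_forall_degree_le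
    rintro ⟨x, u⟩
    rw [hdeg]
    exact G'.degree_le_maxDegree u
  · apply SimpleGraph.maxDegree_le_of_forall_degree_le
    intro u
    rw [← hdeg x0 u]
    exact (wreath G G').degree_le_maxDegree _

/-- For finite graphs with `χ'(G) = Δ(G)`: `χ'(G ρ G') = Δ(G ρ G')` holds exactly when `G` has
an edge, or `G` has no vertex, or `χ'(G') = Δ(G')`. -/
theorem result {V W : Type} [Fintype V] [Fintype W] (G : SimpleGraph V) (G' : SimpleGraph W)
    [DecidableRel G.Adj] [DecidableRel G'.Adj] [DecidableRel (wreath G G').Adj]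
    (h : G.lineGraph.chromaticNumber = (G.maxDegree : ℕ∞)) :
    (wreath G G').lineGraph.chromaticNumber = ((wreath G G').maxDegree : ℕ∞) ↔
      ((∃ x y, G.Adj x y) ∨ IsEmpty V ∨ G'.lineGraph.chromaticNumber = (G'.maxDegree : ℕ∞)) := by
  by_cases hG : ∃ x y, G.Adj x y
  · exact ⟨fun _ => Or.inl hG,
      fun _ => Pool.Agent.Results.MP_632be6_co.WreathClassOne.result G G' hG h⟩
  rcases isEmpty_or_nonempty V with hV | ⟨⟨x0⟩⟩
  · refine ⟨fun _ => Or.inr (Or.inl hV), fun _ => ?_⟩
    have h1 : IsEmpty (wreath G G').edgeSet := by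
      constructor
      rintro ⟨e, he⟩
      induction e using Sym2.ind with
      | _ p q => exact hV.false p.1
    rw [SimpleGraph.chromaticNumber_eq_zero_of_isEmpty]
    have : (wreath G G').maxDegree = 0 := by
      apply Nat.le_zero.mp
      apply SimpleGraph.maxDegree_le_of_forall_degree_le
      intro p
      exact (hV.false p.1).elim
    rw [this]
    rfl
  · have h1 : (wreath G G').lineGraph.chromaticNumber = G'.lineGraph.chromaticNumber := by
      apply le_antisymm
      · apply SimpleGraph.chromaticNumber_le_of_forall_imp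
        intro n hn
        exact (colorable_iff G G' hG x0 n).mpr hn
      · apply SimpleGraph.chromaticNumber_le_of_forall_imp
        intro n hn
        exact (colorable_iff G G' hG x0 n).mp hn
    rw [h1, maxDegree_eq G G' hG x0]
    refine ⟨fun h2 => Or.inr (Or.inr h2), ?_⟩
    rintro (h2 | h2 | h2)
    · exact absurd h2 hG
    · exact (h2.false x0).elim
    · exact h2

end Pool.Agent.Results.MP_632be6_co.WreathAllGraphs
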