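import Pool.Agent.Helper101.WrE

set_option autoImplicit false

namespace Pool.Agent.Results.MP_632be6_co.WreathClassOne

open Finset Pool.Agent.Helper101.Wr

/-- The wreath product `G ρ G'` of two graphs. -/
def wreath {V W : Type} (G : SimpleGraph V) (G' : SimpleGraph W) : SimpleGraph (V × W) where
  Adj p q := (p.1 = q.1 ∧ G'.Adj p.2 q.2) ∨ (G.Adj p.1 q.1 ∧ ∃ φ : G' ≃g G', φ p.2 = q.2)
  symm := ⟨by
    rintro p q (⟨h1, h2⟩ | ⟨h1, φ, h2⟩)
    · exact Or.inl ⟨h1.symm, h2.symm⟩
    · exact Or.inr ⟨h1.symm, φ.symm, by rw [← h2]; simp⟩⟩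
  loopless := ⟨by
    rintro p (⟨_, h2⟩ | ⟨h1, _⟩)
    · exact G'.loopless.irrefl _ h2
    · exact G.loopless.irrefl _ h1⟩

lemma deg_le_of_colorable {U : Type} [Fintype U] (H : SimpleGraph U) [DecidableRel H.Adj] (n : ℕ)
    (h : H.lineGraph.Colorable n) : H.maxDegree ≤ n := by
  classical
  apply H.maxDegree_le_of_forall_degree_le
  intro p
  obtain ⟨col⟩ := h
  rw [← SimpleGraph.card_neighborSet_eq_degree, ← Fintype.card_fin n]
  refine Fintype.card_le_of_injective
    (fun q : H.neighborSet p => col ⟨s(p, (q : U)), q.2⟩) ?_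
  intro q q' hqq
  by_contra hne
  have hadj : H.lineGraph.Adj ⟨s(p, (q : U)), q.2⟩ ⟨s(p, (q' : U)), q'.2⟩ := by
    rw [SimpleGraph.lineGraph_adj_iff_exists]
    refine ⟨?_, p, Sym2.mem_mk_left _ _, Sym2.mem_mk_left _ _⟩
    intro heq
    have h1 := congrArg Subtype.val heq
    exact hne (Subtype.ext (Sym2.congr_right.mp h1))
  exact col.valid hadj hqq

lemma max_bound {V W : Type} [Fintype V] [Fintype W] [DecidableEq W] (G : SimpleGraph V)
    (G' : SimpleGraph W)
    [DecidableRel G.Adj] [DecidableRel (wreath G G').Adj] (hne : Nonempty V) (u : W) :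
    G.maxDegree * (orb G' u).card + (nbs G' u).card ≤ (wreath G G').maxDegree := by
  classical
  obtain ⟨x, hx⟩ := G.exists_maximal_degree_vertex
  refine le_trans ?_ ((wreath G G').degree_le_maxDegree (x, u))
  rw [← SimpleGraph.card_neighborFinset_eq_degree]
  have hsub : (G.neighborFinset x ×ˢ orb G' u) ∪ (nbs G' u).image (fun v => (x, v)) ⊆
      (wreath G G').neighborFinset (x, u) := by
    intro p hp
    rw [SimpleGraph.mem_neighborFinset]
    rcases mem_union.mp hp with h | h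
    · obtain ⟨h1, h2⟩ := mem_product.mp h
      exact Or.inr ⟨by simpa using h1, mem_orb.mp h2⟩
    · obtain ⟨v, hv, rfl⟩ := mem_image.mp h
      exact Or.inl ⟨rfl, mem_nbs.mp hv⟩
  refine le_trans ?_ (card_le_card hsub)
  rw [card_union_of_disjoint, card_product, SimpleGraph.card_neighborFinset_eq_degree, ← hx,
    card_image_of_injective]
  · intro a b hab
    exact congrArg Prod.snd hab
  · rw [disjoint_left]
    intro p h1 h2
    obtain ⟨v, _, rfl⟩ := mem_image.mp h2
    have := (mem_product.mp h1).1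
    simp at this

theorem upper {V W : Type} [Fintype V] [Fintype W] (G : SimpleGraph V)
    (G' : SimpleGraph W) [DecidableRel G.Adj] [DecidableRel (wreath G G').Adj]
    (hedge : ∃ x y, G.Adj x y) (h : G.lineGraph.Colorable G.maxDegree) :
    (wreath G G').lineGraph.Colorable (wreath G G').maxDegree := by
  classical
  obtain ⟨x0, y0, hxy0⟩ := hedge
  have hΔ : 1 ≤ G.maxDegree := by
    refine le_trans ?_ (G.degree_le_maxDegree x0)
    rw [Nat.succ_le_iff, SimpleGraph.degree_pos_iff_exists_adj]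
    exact ⟨y0, hxy0⟩
  rcases isEmpty_or_nonempty W with hW | hW
  · have : IsEmpty (wreath G G').edgeSet := by
      constructor
      rintro ⟨e, he⟩
      induction e using Sym2.ind with
      | _ p q => exact hW.false p.2
    exact ⟨SimpleGraph.Coloring.mk (fun e => (this.false e).elim)
      (fun {e} => (this.false e).elim)⟩
  obtain ⟨kit⟩ := kit_exists G' G.maxDegree (wreath G G').maxDegree hΔ
    (fun u => max_bound G G' ⟨x0⟩ u)
  have hD : 0 < (wreath G G').maxDegree := by
    obtain ⟨u⟩ := hW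
    have h1 := max_bound G G' ⟨x0⟩ u
    have h2 : 1 ≤ (orb G' u).card := card_pos.mpr ⟨u, mem_orb.mpr (Same.refl G' u)⟩
    have := Nat.mul_le_mul hΔ h2
    omega
  obtain ⟨col⟩ := h
  -- colours of the edges of `G`
  set g : V → V → Fin G.maxDegree := fun x y =>
    if h : s(x, y) ∈ G.edgeSet then col ⟨s(x, y), h⟩ else ⟨0, hΔ⟩ with hg
  have gsymm : ∀ x y, g x y = g y x := by
    intro x y
    simp only [hg]
    have e : s(x, y) = s(y, x) := Sym2.eq_swap
    simp only [e]
  have gne : ∀ x y z, G.Adj x y → G.Adj x z → y ≠ z → g x y ≠ g x z := by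
    intro x y z hy hz hyz
    have h1 : s(x, y) ∈ G.edgeSet := hy
    have h2 : s(x, z) ∈ G.edgeSet := hz
    simp only [hg, dif_pos h1, dif_pos h2]
    apply col.valid
    rw [SimpleGraph.lineGraph_adj_iff_exists]
    refine ⟨?_, x, Sym2.mem_mk_left _ _, Sym2.mem_mk_left _ _⟩
    intro heq
    have h3 := congrArg Subtype.val heq
    exact hyz (Sym2.congr_right.mp h3)
  let ι := Fintype.equivFin V
  set F2 : V × W → V × W → Fin (wreath G G').maxDegree := fun p q =>
    if p.1 = q.1 then (if G'.Adj p.2 q.2 then kit.h p.2 q.2 else ⟨0, hD⟩)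
    else if ι p.1 < ι q.1 then kit.q (g p.1 q.1) p.2 q.2 else kit.q (g p.1 q.1) q.2 p.2 with hF2
  have F2symm : ∀ p q, F2 p q = F2 q p := by
    intro p q
    simp only [hF2]
    by_cases h1 : p.1 = q.1
    · rw [if_pos h1, if_pos h1.symm]
      by_cases h2 : G'.Adj p.2 q.2
      · rw [if_pos h2, if_pos h2.symm]
        exact kit.K0 _ _ trivial h2
      · rw [if_neg h2, if_neg (fun h => h2 h.symm)]
    · rw [if_neg h1, if_neg (Ne.symm h1)]
      have hne : ι p.1 ≠ ι q.1 := fun h => h1 (ι.injective h)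
      rcases lt_or_gt_of_ne hne with h2 | h2
      · rw [if_pos h2, if_neg (not_lt.mpr h2.le), gsymm]
      · rw [if_neg (not_lt.mpr h2.le), if_pos h2, gsymm]
  -- local distinctness
  have key : ∀ p q r, (wreath G G').Adj p q → (wreath G G').Adj p r → q ≠ r →
      F2 p q ≠ F2 p r := by
    intro p q r hq hr hqr
    have form : ∀ q, (wreath G G').Adj p q → (p.1 = q.1 ∧ G'.Adj p.2 q.2 ∧
        F2 p q = kit.h p.2 q.2) ∨ (G.Adj p.1 q.1 ∧ Same G' p.2 q.2 ∧
        ((ι p.1 < ι q.1 ∧ F2 p q = kit.q (g p.1 q.1) p.2 q.2) ∨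
        (¬ ι p.1 < ι q.1 ∧ F2 p q = kit.q (g p.1 q.1) q.2 p.2))) := by
      intro q hq
      rcases hq with ⟨h1, h2⟩ | ⟨h1, h2⟩
      · left
        refine ⟨h1, h2, ?_⟩
        simp only [hF2, if_pos h1, if_pos h2]
      · right
        refine ⟨h1, h2, ?_⟩
        have hne : p.1 ≠ q.1 := h1.ne
        by_cases h3 : ι p.1 < ι q.1
        · exact Or.inl ⟨h3, by simp only [hF2, if_neg hne, if_pos h3]⟩
        · exact Or.inr ⟨h3, by simp only [hF2, if_neg hne, if_neg h3]⟩
    rcases form q hq with ⟨a1, a2, a3⟩ | ⟨a1, a2, a3⟩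
    · rcases form r hr with ⟨b1, b2, b3⟩ | ⟨b1, b2, b3⟩
      · intro heq
        rw [a3, b3] at heq
        exact hqr (Prod.ext (a1.symm.trans b1) (kit.K1 _ _ _ trivial a2 b2 heq))
      · rw [a3]
        rcases b3 with ⟨-, b3⟩ | ⟨-, b3⟩
        · rw [b3]
          exact (kit.K2 _ _ _ _ trivial a2 b2).1
        · rw [b3]
          exact (kit.K2 _ _ _ _ trivial a2 b2).2
    · rcases form r hr with ⟨b1, b2, b3⟩ | ⟨b1, b2, b3⟩
      · rw [b3]
        rcases a3 with ⟨-, a3⟩ | ⟨-, a3⟩
        · rw [a3]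
          exact (kit.K2 _ _ _ _ trivial b2 a2).1.symm
        · rw [a3]
          exact (kit.K2 _ _ _ _ trivial b2 a2).2.symm
      · by_cases hqr1 : q.1 = r.1
        · have hqr2 : q.2 ≠ r.2 := fun h => hqr (Prod.ext hqr1 h)
          intro heq
          rcases a3 with ⟨a4, a3⟩ | ⟨a4, a3⟩
          · rcases b3 with ⟨b4, b3⟩ | ⟨b4, b3⟩
            · rw [a3, b3, ← hqr1] at heq
              exact hqr2 ((kit.K3 _ _ _ _ trivial a2 b2).1 heq)
            · rw [hqr1] at a4
              exact b4 a4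
          · rcases b3 with ⟨b4, b3⟩ | ⟨b4, b3⟩
            · rw [hqr1] at a4
              exact a4 b4
            · rw [a3, b3, ← hqr1] at heq
              exact hqr2 ((kit.K3 _ _ _ _ trivial a2 b2).2 heq)
        · have hgg := gne _ _ _ a1 b1 hqr1
          obtain ⟨k1, k2, k3, k4⟩ := kit.K4 p.2 q.2 r.2 _ _ trivial a2 b2 hgg
          rcases a3 with ⟨-, a3⟩ | ⟨-, a3⟩
          · rcases b3 with ⟨-, b3⟩ | ⟨-, b3⟩
            · rw [a3, b3]; exact k1
            · rw [a3, b3]; exact k2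
          · rcases b3 with ⟨-, b3⟩ | ⟨-, b3⟩
            · rw [a3, b3]; exact k3
            · rw [a3, b3]; exact k4
  refine ⟨SimpleGraph.Coloring.mk
    (fun e => Sym2.lift ⟨F2, F2symm⟩ (e : Sym2 (V × W))) ?_⟩
  intro e f hef
  rw [SimpleGraph.lineGraph_adj_iff_exists] at hef
  obtain ⟨hne, p, hpe, hpf⟩ := hef
  obtain ⟨e, he⟩ := e
  obtain ⟨f, hf⟩ := f
  obtain ⟨q, rfl⟩ := Sym2.mem_iff_exists.mp hpe
  obtain ⟨r, rfl⟩ := Sym2.mem_iff_exists.mp hpf
  have hqr : q ≠ r := by
    rintro rfl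
    exact hne rfl
  exact key p q r he hf hqr

/-- If `χ'(G) = Δ(G)` and `G` has an edge, then `χ'(G ρ G') = Δ(G ρ G')`. -/
theorem result {V W : Type} [Fintype V] [Fintype W] (G : SimpleGraph V) (G' : SimpleGraph W)
    [DecidableRel G.Adj] [DecidableRel (wreath G G').Adj] (hedge : ∃ x y, G.Adj x y)
    (h : G.lineGraph.chromaticNumber = (G.maxDegree : ℕ∞)) :
    (wreath G G').lineGraph.chromaticNumber = ((wreath G G').maxDegree : ℕ∞) := by
  have hcol : G.lineGraph.Colorable G.maxDegree :=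
    SimpleGraph.chromaticNumber_le_iff_colorable.mp h.le
  have hup := upper G G' hedge hcol
  refine le_antisymm hup.chromaticNumber_le ?_
  rw [SimpleGraph.le_chromaticNumber_iff_colorable]
  intro m hm
  exact deg_le_of_colorable _ m hm

end Pool.Agent.Results.MP_632be6_co.WreathClassOne
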